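import Pool.Agent.H25.PG.Targets

/-!
# Row D2 of the board pg_modules (helper32)
-/

set_option autoImplicit false

open Finset Pool.Agent.H25.PG

namespace Pool.Agent.H32.PG

theorem D2_zero (g j n : ℕ) (h : n < g ^ j) : dg g j n = 0 := by
  unfold dg
  rw [Nat.div_eq_of_lt h, Nat.zero_mod]

theorem pf_D2 (hD1 : T_D1) (hD3 : T_D3) : T_D2 := by
  intro g x y hg hxy j
  set K : ℕ := x + y + 1 with hK
  have hKlt : K < g ^ K := Nat.lt_pow_self (by omega)
  have hx : x < g ^ K := by omega
  have hy : y < g ^ K := by omega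
  have hx3 := hD3 g K x hg hx
  have hy3 := hD3 g K y hg hy
  have hsum : x + y = ∑ i ∈ range K, (dg g i x + dg g i y) * g ^ i := by
    calc x + y = ∑ i ∈ range K, dg g i x * g ^ i + ∑ i ∈ range K, dg g i y * g ^ i := by
          rw [hx3, hy3]
      _ = ∑ i ∈ range K, (dg g i x + dg g i y) * g ^ i := by
          rw [← sum_add_distrib]
          exact sum_congr rfl fun i _ => by ring
  have hlt : ∀ (i n : ℕ), dg g i n < g := fun i n => Nat.mod_lt _ (by omega)
  have hd : ∀ i, dg g i x + dg g i y < g := by
    intro i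
    rcases hxy i with h | h
    · rw [h, zero_add]; exact hlt i y
    · rw [h, add_zero]; exact hlt i x
  have h1 := hD1 g (fun i => dg g i x + dg g i y) K j hg hd
  have h2 : dg g j (x + y) = if j < K then dg g j x + dg g j y else 0 := by
    rw [← h1]
    exact congrArg (dg g j) hsum
  rw [h2]
  by_cases hj : j < K
  · rw [if_pos hj]
  · rw [if_neg hj]
    have hjK : g ^ K ≤ g ^ j := Nat.pow_le_pow_right (by omega) (by omega)
    rw [D2_zero g j x (by omega), D2_zero g j y (by omega)]

end Pool.Agent.H32.PG
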