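import Pool.Agent.H25.PG.Targets

/-!
# Row D3 of the board pg_modules (helper32)
-/

set_option autoImplicit false

open Finset Pool.Agent.H25.PG

namespace Pool.Agent.H32.PG

theorem D3_mod (g n : ℕ) : ∀ K : ℕ, ∑ j ∈ range K, dg g j n * g ^ j = n % g ^ K := by
  intro K
  induction K with
  | zero => simp [Nat.mod_one]
  | succ K ih =>
    rw [sum_range_succ, ih, Nat.mod_pow_succ]
    unfold dg
    ring

theorem pf_D3 : T_D3 := by
  intro g K n _ hn
  rw [D3_mod, Nat.mod_eq_of_lt hn]

end Pool.Agent.H32.PG
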